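import Pool.Agent.Helper53.PF.St

/-!
# Project PF, module NRM: the normal form of `s` and `z` over `ℚ`
-/

namespace PF.Helper33

open Polynomial

/-- `1, Z, Z²` are independent modulo `S` -/
theorem indep {n : ℚ} (hn : ∀ a : ℚ, a ^ 3 ≠ n) {S Z : ℚ[X]} (hS : S.natDegree = 3)
    (hd : S ∣ Z ^ 3 - C n) {a b c : ℚ} (h : S ∣ C a + C b * Z + C c * Z ^ 2) : a = 0 ∧ b = 0 ∧ c = 0 := by
  have hirr : Irreducible (X ^ 3 - C n : ℚ[X]) :=
    X_pow_sub_C_irreducible_of_prime Nat.prime_three hn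
  have hmon : (X ^ 3 - C n : ℚ[X]).natDegree = 3 := natDegree_X_pow_sub_C
  have hP : (C a + C b * X + C c * X ^ 2 : ℚ[X]) = 0 := by
    by_contra hP
    have hnd : ¬ (X ^ 3 - C n : ℚ[X]) ∣ C a + C b * X + C c * X ^ 2 := by
      intro hdv
      have h1 := natDegree_le_of_dvd hdv hP
      have h2 : (C a + C b * X + C c * X ^ 2 : ℚ[X]).natDegree ≤ 2 := by compute_degree
      omega
    obtain ⟨u, v, huv⟩ := (Irreducible.coprime_iff_not_dvd hirr).2 hnd
    have h1 := congrArg (fun p => p.comp Z) huv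
    simp only [add_comp, mul_comp, sub_comp, pow_comp, X_comp, C_comp, one_comp] at h1
    have h2 : S ∣ 1 := by
      rw [← h1]
      exact dvd_add (dvd_mul_of_dvd_right hd _) (dvd_mul_of_dvd_right h _)
    have h3 := natDegree_le_of_dvd h2 one_ne_zero
    rw [hS, natDegree_one] at h3
    omega
  refine ⟨?_, ?_, ?_⟩
  · have := congrArg (fun p => p.coeff 0) hP
    simpa using this
  · have := congrArg (fun p => p.coeff 1) hP
    simpa [coeff_X, coeff_C] using this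
  · have := congrArg (fun p => p.coeff 2) hP
    simpa [coeff_X, coeff_C] using this

/-- `1, Z, Z²` span modulo `S` -/
theorem spans {n : ℚ} (hn : ∀ a : ℚ, a ^ 3 ≠ n) {S Z : ℚ[X]} (hS : S.natDegree = 3)
    (hd : S ∣ Z ^ 3 - C n) (f : ℚ[X]) : ∃ p q r : ℚ, S ∣ f - (C p + C q * Z + C r * Z ^ 2) := by
  have hS0 : S ≠ 0 := by
    rintro rfl
    simp at hS
  let φ : (Fin 3 → ℚ) →ₗ[ℚ] AdjoinRoot S :=
    { toFun := fun v => AdjoinRoot.mk S (C (v 0) + C (v 1) * Z + C (v 2) * Z ^ 2)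
      map_add' := by
        intro v w
        rw [← map_add]
        congr 1
        simp only [Pi.add_apply, map_add]
        ring
      map_smul' := by
        intro c v
        rw [RingHom.id_apply, AdjoinRoot.smul_mk]
        congr 1
        simp only [Pi.smul_apply, smul_eq_mul, map_mul, smul_eq_C_mul]
        ring }
  have hφ : ∀ v, φ v = AdjoinRoot.mk S (C (v 0) + C (v 1) * Z + C (v 2) * Z ^ 2) := fun _ => rfl
  have hinj : Function.Injective φ := by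
    rw [← LinearMap.ker_eq_bot, LinearMap.ker_eq_bot']
    intro v hv
    rw [hφ, AdjoinRoot.mk_eq_zero] at hv
    obtain ⟨h0, h1, h2⟩ := indep hn hS hd hv
    ext i
    fin_cases i
    · exact h0
    · exact h1
    · exact h2
  have : FiniteDimensional ℚ (AdjoinRoot S) := (AdjoinRoot.powerBasis hS0).finite
  have hdim : Module.finrank ℚ (Fin 3 → ℚ) = Module.finrank ℚ (AdjoinRoot S) := by
    rw [(AdjoinRoot.powerBasis hS0).finrank, AdjoinRoot.powerBasis_dim, hS]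
    simp
  obtain ⟨v, hv⟩ := (LinearMap.injective_iff_surjective_of_finrank_eq_finrank hdim).1 hinj (AdjoinRoot.mk S f)
  refine ⟨v 0, v 1, v 2, ?_⟩
  rw [← AdjoinRoot.mk_eq_mk, ← hφ, hv]

theorem holds_NRM : StNRM := by
  intro _ hREP n hn s z w hc
  obtain ⟨hs, hz, hw, heq⟩ := hc
  have hdz : s ∣ z ^ 3 - C n := by
    refine ⟨C (-1 / 4) * (3 * w ^ 2 + s ^ 2), ?_⟩
    have h1 : C (4 * n) = 4 * (C n : ℚ[X]) := by rw [map_mul]; rfl
    have h2 : (C (-1 / 4) * 4 : ℚ[X]) = -1 := by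
      have h3 : (4 : ℚ[X]) = C 4 := rfl
      rw [h3, ← map_mul]
      norm_num
    rw [h1] at heq
    linear_combination (-C (-1 / 4)) * heq + (z ^ 3 - C n) * h2
  obtain ⟨p, q, r, hX⟩ := spans hn hs hdz X
  -- the cubic
  obtain ⟨G, hG⟩ : ∃ G : ℚ[X], G = (X - C p) ^ 3 - C (3 * n * q * r) * (X - C p)
      - C (n * q ^ 3 + n ^ 2 * r ^ 3) := ⟨_, rfl⟩
  have hsG : s ∣ G := by
    obtain ⟨β, hβ⟩ : ∃ β : ℚ[X], β = C q * z + C r * z ^ 2 := ⟨_, rfl⟩
    have h1 : s ∣ (X - C p) - β := by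
      have h2 : X - (C p + C q * z + C r * z ^ 2) = (X - C p) - β := by rw [hβ]; ring
      rwa [h2] at hX
    have h3 : s ∣ (X - C p) ^ 3 - β ^ 3 := h1.trans (sub_dvd_pow_sub_pow _ _ 3)
    have h4 : G = ((X - C p) ^ 3 - β ^ 3) - C (3 * n * q * r) * ((X - C p) - β) +
        (z ^ 3 - C n) * (C q ^ 3 + 3 * C q ^ 2 * C r * z + 3 * C q * C r ^ 2 * z ^ 2 + C r ^ 3 * (z ^ 3 + C n)) := by
      rw [hG, hβ]
      simp only [map_mul, map_add, map_pow]
      have h3 : (C 3 : ℚ[X]) = 3 := rfl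
      rw [h3]
      ring
    rw [h4]
    exact dvd_add (dvd_sub h3 (dvd_mul_of_dvd_right h1 _)) (dvd_mul_of_dvd_left hdz _)
  have hGd : G.natDegree = 3 := by
    rw [hG]
    compute_degree!
  have hG0 : G ≠ 0 := by
    intro h
    rw [h] at hGd
    simp at hGd
  obtain ⟨k, hk⟩ := hsG
  have hk0 : k ≠ 0 := by
    rintro rfl
    rw [mul_zero] at hk
    exact hG0 hk
  have hs0 : s ≠ 0 := by
    rintro rfl
    simp at hs
  have hkd : k.natDegree = 0 := by
    have h1 := congrArg natDegree hk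
    rw [natDegree_mul hs0 hk0, hGd, hs] at h1
    omega
  obtain ⟨κ, rfl⟩ := natDegree_eq_zero.1 hkd
  have hκ : κ ≠ 0 := by
    rintro rfl
    exact hk0 (map_zero _)
  have hsσ : s = C κ⁻¹ * G := by
    rw [hk, mul_comm, mul_assoc, ← map_mul, mul_inv_cancel₀ hκ, map_one, mul_one]
  obtain ⟨S, hSdef⟩ : ∃ S : ℚ[X], S = s.comp (X + C p) := ⟨_, rfl⟩
  obtain ⟨Z, hZdef⟩ : ∃ Z : ℚ[X], Z = z.comp (X + C p) := ⟨_, rfl⟩
  have hSe : S = C κ⁻¹ * (X ^ 3 - C (3 * n * q * r) * X - C (n * q ^ 3 + n ^ 2 * r ^ 3)) := by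
    rw [hSdef, hsσ, hG]
    simp only [mul_comp, C_comp, sub_comp, pow_comp, X_comp, add_sub_cancel_right]
  have hSd : S.natDegree = 3 := by
    rw [hSdef, natDegree_comp, hs, natDegree_X_add_C]
  have hZd : Z.natDegree = 5 := by
    rw [hZdef, natDegree_comp, hz, natDegree_X_add_C]
  have hcomp : ∀ a b : ℚ[X], a ∣ b → a.comp (X + C p) ∣ b.comp (X + C p) := by
    rintro a b ⟨c, rfl⟩
    rw [mul_comp]
    exact dvd_mul_right _ _
  have hdZ : S ∣ Z ^ 3 - C n := by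
    have h1 := hcomp _ _ hdz
    rwa [sub_comp, pow_comp, C_comp, ← hSdef, ← hZdef] at h1
  have hX' : S ∣ X - (C q * Z + C r * Z ^ 2) := by
    have h1 := hcomp _ _ hX
    rw [← hSdef] at h1
    convert h1 using 1
    simp only [sub_comp, add_comp, mul_comp, pow_comp, X_comp, C_comp, ← hZdef]
    ring
  obtain ⟨a, b, c, hZ, ha, hb, hc⟩ := hREP ℚ S Z hSd
  rw [hZd] at ha hb hc
  have ha1 : a.natDegree ≤ 1 := by omega
  have hb1 : b.natDegree ≤ 1 := by
    by_cases h0 : b = 0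
    · rw [h0]; simp
    · have := hb h0
      omega
  have hc1 : c.natDegree ≤ 1 := by
    by_cases h0 : c = 0
    · rw [h0]; simp
    · have := hc h0
      omega
  obtain ⟨a₁, a₀, rfl⟩ := exists_eq_X_add_C_of_natDegree_le_one ha1
  obtain ⟨b₁, b₀, rfl⟩ := exists_eq_X_add_C_of_natDegree_le_one hb1
  obtain ⟨c₁, c₀, rfl⟩ := exists_eq_X_add_C_of_natDegree_le_one hc1
  have hkey : S ∣ C (a₀ + 2 * n * q * r * c₀) + C (b₀ * q + n * c₀ * r ^ 2 - 1) * Z +
      C (b₀ * r + c₀ * q ^ 2) * Z ^ 2 := by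
    obtain ⟨d, hd⟩ := hdZ
    obtain ⟨e, he⟩ := hX'
    have hXe : X = C q * Z + C r * Z ^ 2 + S * e := by rw [← he]; ring
    have hZe : Z = (C a₁ * S + C a₀) + (C b₁ * S + C b₀) * X + (C c₁ * S + C c₀) * X ^ 2 := by
      conv_lhs => rw [hZ]
      simp only [add_comp, mul_comp, X_comp, C_comp]
    refine ⟨-(C a₁ + C b₁ * X + C c₁ * X ^ 2) - C b₀ * e - C c₀ * (e * (2 * (C q * Z + C r * Z ^ 2) + S * e))
      - C c₀ * (2 * C q * C r * d + C r ^ 2 * Z * d), ?_⟩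
    simp only [map_add, map_sub, map_mul, map_pow, map_one]
    have h2 : (C 2 : ℚ[X]) = 2 := rfl
    rw [h2]
    have hX2 : X ^ 2 = (C q * Z + C r * Z ^ 2 + S * e) ^ 2 := by rw [← hXe]
    linear_combination (-1 : ℚ[X]) * hZe - C b₀ * hXe - C c₀ * hX2 - C c₀ * (2 * C q * C r + C r ^ 2 * Z) * hd
  obtain ⟨e1, e2, e3⟩ := indep hn hSd hdZ hkey
  refine ⟨p, κ⁻¹, q, r, a₀, a₁, b₀, b₁, c₀, c₁, inv_ne_zero hκ, ?_, e1, by linarith, e3, ?_, ?_⟩
  · rintro rfl
    have h5 : Z.natDegree ≤ 4 := by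
      rw [hZ]
      simp only [add_comp, mul_comp, X_comp, C_comp, map_zero, zero_mul, zero_add]
      rw [hSe]
      compute_degree
    omega
  · rw [← hSdef]
    exact hSe
  · rw [← hSdef, ← hZdef]
    conv_lhs => rw [hZ]
    rw [add_comm (C a₁ * X), add_comm (C b₁ * X), add_comm (C c₁ * X)]

end PF.Helper33
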